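import Pool.Agent.W785.FD.Stms

/-! Part CHAIN of project FD: difference of means along a curve. -/

set_option autoImplicit false

open MeasureTheory Metric Set Filter
open scoped ENNReal NNReal Topology

namespace Pool.Agent.W101.FD

open Pool.Agent.W785.FD

section
variable {X : Type*} [MetricSpace X] [MeasurableSpace X]

lemma dbl_four {μ : Measure X} {D : ℝ} (hD : Dbl μ D) {a : X} {r R : ℝ} (hr : 0 < r)
    (hR : R ≤ 4 * r) : μ (ball a R) ≤ ENNReal.ofReal (D ^ 2) * μ (ball a r) := by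
  have h1 := hD.dbl a r hr
  have h2 := hD.dbl a (2 * r) (by positivity)
  have hD0 : 0 ≤ D := by linarith [hD.one_le]
  calc μ (ball a R) ≤ μ (ball a (2 * (2 * r))) := measure_mono (ball_subset_ball (by linarith))
    _ ≤ ENNReal.ofReal D * μ (ball a (2 * r)) := h2
    _ ≤ ENNReal.ofReal D * (ENNReal.ofReal D * μ (ball a r)) := by gcongr
    _ = ENNReal.ofReal (D ^ 2) * μ (ball a r) := by
      rw [← mul_assoc, ← ENNReal.ofReal_mul hD0, ← sq]

lemma mean_sub_le {μ : Measure X} {v : X → ℝ} (hv : LI μ v) {a b : X} {r s E : ℝ}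
    (hs0 : μ (ball b s) ≠ 0) (hsf : μ (ball b s) ≠ ∞) (ha0 : μ (ball a r) ≠ 0)
    (haf : μ (ball a r) ≠ ∞) (hsub : ball b s ⊆ ball a r)
    (hm : μ (ball a r) ≤ ENNReal.ofReal E * μ (ball b s)) :
    ENNReal.ofReal |mean μ v b s - mean μ v a r| ≤ ENNReal.ofReal E * osc μ v a r := by
  set m := mean μ v a r with hmdef
  have hr0 : μ.real (ball b s) ≠ 0 := by
    rw [Measure.real, ENNReal.toReal_ne_zero]
    exact ⟨hs0, hsf⟩
  have h1 : (μ.real (ball b s)) * (mean μ v b s - m) = ∫ y in ball b s, (v y - m) ∂μ := by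
    rw [integral_sub (hv b s) (integrableOn_const hsf), setIntegral_const, mean, setAverage_eq,
      smul_eq_mul, smul_eq_mul, mul_sub, mul_inv_cancel_left₀ hr0]
  have h2 : μ (ball b s) * ENNReal.ofReal |mean μ v b s - m| ≤
      ∫⁻ y in ball b s, ENNReal.ofReal |v y - m| ∂μ := by
    have h := enorm_integral_le_lintegral_enorm (μ := μ.restrict (ball b s)) (fun y => v y - m)
    rw [← h1, enorm_mul] at h
    simp only [Real.enorm_eq_ofReal_abs] at h
    rwa [abs_of_nonneg measureReal_nonneg, ofReal_measureReal hsf] at h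
  have h3 : ∫⁻ y in ball a r, ENNReal.ofReal |v y - m| ∂μ = osc μ v a r * μ (ball a r) := by
    rw [osc, lav, ENNReal.div_mul_cancel ha0 haf]
  have h4 : μ (ball b s) * ENNReal.ofReal |mean μ v b s - m| ≤
      μ (ball b s) * (ENNReal.ofReal E * osc μ v a r) := by
    calc μ (ball b s) * ENNReal.ofReal |mean μ v b s - m|
        ≤ ∫⁻ y in ball a r, ENNReal.ofReal |v y - m| ∂μ := h2.trans (lintegral_mono_set hsub)
      _ = osc μ v a r * μ (ball a r) := h3
      _ ≤ osc μ v a r * (ENNReal.ofReal E * μ (ball b s)) := by gcongr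
      _ = _ := by ring
  calc ENNReal.ofReal |mean μ v b s - m|
      = (μ (ball b s))⁻¹ * (μ (ball b s) * ENNReal.ofReal |mean μ v b s - m|) := by
        rw [← mul_assoc, ENNReal.inv_mul_cancel hs0 hsf, one_mul]
    _ ≤ (μ (ball b s))⁻¹ * (μ (ball b s) * (ENNReal.ofReal E * osc μ v a r)) := by gcongr
    _ = _ := by rw [← mul_assoc, ENNReal.inv_mul_cancel hs0 hsf, one_mul]

lemma lav_le {μ : Measure X} {f : X → ℝ≥0∞} {a z : X} {r R E : ℝ} (hE : 0 < E)
    (hsub : ball a r ⊆ ball z R) (hm : μ (ball z R) ≤ ENNReal.ofReal E * μ (ball a r)) :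
    lav μ f a r ≤ ENNReal.ofReal E * lav μ f z R := by
  have hE0 : ENNReal.ofReal E ≠ 0 := (ENNReal.ofReal_pos.2 hE).ne'
  have hEt : ENNReal.ofReal E ≠ ∞ := ENNReal.ofReal_ne_top
  unfold lav
  rw [div_eq_mul_inv, div_eq_mul_inv, mul_left_comm]
  refine mul_le_mul' (lintegral_mono_set hsub) ?_
  have h1 : (ENNReal.ofReal E * μ (ball a r))⁻¹ ≤ (μ (ball z R))⁻¹ := ENNReal.inv_le_inv.2 hm
  rw [ENNReal.mul_inv (Or.inl hE0) (Or.inl hEt)] at h1
  calc (μ (ball a r))⁻¹ = ENNReal.ofReal E * ((ENNReal.ofReal E)⁻¹ * (μ (ball a r))⁻¹) := by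
        rw [← mul_assoc, ENNReal.mul_inv_cancel hE0 hEt, one_mul]
    _ ≤ _ := by gcongr

/-- one step of the chain -/
lemma step {μ : Measure X} {p D K Λ : ℝ} (hp : 1 < p) (hD : Dbl μ D) (hK : 0 ≤ K) (hΛ : 1 ≤ Λ)
    {v : X → ℝ} {g : X → ℝ≥0∞} (hv : LI μ v) (hPP : PP μ p K Λ v g) {ρ : ℝ} (hρ : 0 < ρ)
    (c : Crv X) {t s : ℝ} (hs1 : ρ / 2 ≤ s) (hs2 : s ≤ ρ) :
    ENNReal.ofReal |mean μ v (c.γ t) ρ - mean μ v (c.γ (t + s)) ρ| ≤
      ENNReal.ofReal (8 * K * D ^ 2 * (D ^ 2) ^ (1 / p)) *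
        ∫⁻ τ in Ioc t (t + s), (lav μ (fun y => g y ^ p) (c.γ τ) ((2 * Λ + 2) * ρ)) ^ (1 / p) := by
  have hD1 := hD.one_le
  have hD0 : 0 < D := by linarith
  have hs0 : 0 < s := by linarith
  have hp0 : 0 < p := by linarith
  set a := c.γ t with ha
  set b := c.γ (t + s) with hb
  have hdist : ∀ τ ∈ Icc t (t + s), dist (c.γ τ) a ≤ ρ := by
    intro τ hτ
    have h := c.lip.dist_le_mul τ t
    rw [NNReal.coe_one, one_mul, Real.dist_eq, abs_of_nonneg (by linarith [hτ.1])] at h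
    linarith [hτ.2]
  have hab : dist b a ≤ ρ := hdist _ ⟨by linarith, le_rfl⟩
  -- the difference of the means
  have hpos : ∀ (x : X) (r : ℝ), 0 < r → μ (ball x r) ≠ 0 := fun x r hr => (hD.pos x r hr).ne'
  have hfin : ∀ (x : X) (r : ℝ), μ (ball x r) ≠ ∞ := fun x r => (hD.fin x r).ne
  have h1 := mean_sub_le hv (a := a) (b := a) (r := 2 * ρ) (s := ρ) (E := D ^ 2)
    (hpos _ _ hρ) (hfin _ _) (hpos _ _ (by linarith)) (hfin _ _)
    (ball_subset_ball (by linarith)) (dbl_four hD hρ (by linarith))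
  have h2 := mean_sub_le hv (a := a) (b := b) (r := 2 * ρ) (s := ρ) (E := D ^ 2)
    (hpos _ _ hρ) (hfin _ _) (hpos _ _ (by linarith)) (hfin _ _)
    (ball_subset_ball' (by linarith)) (by
      refine (measure_mono (ball_subset_ball' (ε₂ := 4 * ρ) (y := b) ?_)).trans
        (dbl_four hD hρ le_rfl)
      rw [dist_comm]
      linarith)
  have h3 : ENNReal.ofReal |mean μ v a ρ - mean μ v b ρ| ≤
      ENNReal.ofReal (2 * D ^ 2) * osc μ v a (2 * ρ) := by
    have h4 : |mean μ v a ρ - mean μ v b ρ| ≤ |mean μ v a ρ - mean μ v a (2 * ρ)| +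
        |mean μ v b ρ - mean μ v a (2 * ρ)| := by
      have : mean μ v a ρ - mean μ v b ρ = (mean μ v a ρ - mean μ v a (2 * ρ)) -
        (mean μ v b ρ - mean μ v a (2 * ρ)) := by ring
      rw [this]
      exact abs_sub _ _
    calc _ ≤ ENNReal.ofReal (|mean μ v a ρ - mean μ v a (2 * ρ)| +
          |mean μ v b ρ - mean μ v a (2 * ρ)|) := ENNReal.ofReal_le_ofReal h4
      _ = ENNReal.ofReal |mean μ v a ρ - mean μ v a (2 * ρ)| +
          ENNReal.ofReal |mean μ v b ρ - mean μ v a (2 * ρ)| :=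
          ENNReal.ofReal_add (abs_nonneg _) (abs_nonneg _)
      _ ≤ ENNReal.ofReal (D ^ 2) * osc μ v a (2 * ρ) +
          ENNReal.ofReal (D ^ 2) * osc μ v a (2 * ρ) := add_le_add h1 h2
      _ = _ := by
          rw [← add_mul, ← ENNReal.ofReal_add (by positivity) (by positivity), ← two_mul]
  have h5 := hPP a (2 * ρ) (by linarith)
  -- comparison with the integral
  set F : ℝ → ℝ≥0∞ := fun τ =>
    (lav μ (fun y => g y ^ p) (c.γ τ) ((2 * Λ + 2) * ρ)) ^ (1 / p) with hF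
  have h6 : ∀ τ ∈ Ioc t (t + s), (lav μ (fun y => g y ^ p) a (Λ * (2 * ρ))) ^ (1 / p) ≤
      ENNReal.ofReal ((D ^ 2) ^ (1 / p)) * F τ := by
    intro τ hτ
    have hd := hdist τ ⟨hτ.1.le, hτ.2⟩
    have hΛρ : ρ ≤ Λ * ρ := by nlinarith
    have h7 : lav μ (fun y => g y ^ p) a (Λ * (2 * ρ)) ≤ ENNReal.ofReal (D ^ 2) *
        lav μ (fun y => g y ^ p) (c.γ τ) ((2 * Λ + 2) * ρ) := by
      refine lav_le (by positivity) (ball_subset_ball' ?_) ?_
      · rw [dist_comm]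
        nlinarith
      · refine (measure_mono (ball_subset_ball' (ε₂ := (2 * Λ + 3) * ρ) (y := a) ?_)).trans
          (dbl_four hD (by positivity) ?_)
        · linarith
        · nlinarith
    calc _ ≤ (ENNReal.ofReal (D ^ 2) *
        lav μ (fun y => g y ^ p) (c.γ τ) ((2 * Λ + 2) * ρ)) ^ (1 / p) :=
          ENNReal.rpow_le_rpow h7 (by positivity)
      _ = _ := by
          rw [ENNReal.mul_rpow_of_nonneg _ _ (by positivity),
            ENNReal.ofReal_rpow_of_nonneg (by positivity) (by positivity)]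
  have h8 : ENNReal.ofReal s * (lav μ (fun y => g y ^ p) a (Λ * (2 * ρ))) ^ (1 / p) ≤
      ENNReal.ofReal ((D ^ 2) ^ (1 / p)) * ∫⁻ τ in Ioc t (t + s), F τ := by
    rw [← lintegral_const_mul' _ _ ENNReal.ofReal_ne_top]
    have e : ENNReal.ofReal s * (lav μ (fun y => g y ^ p) a (Λ * (2 * ρ))) ^ (1 / p) =
        ∫⁻ _ in Ioc t (t + s), (lav μ (fun y => g y ^ p) a (Λ * (2 * ρ))) ^ (1 / p) := by
      rw [setLIntegral_const, Real.volume_Ioc, mul_comm]
      congr 2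
      ring
    rw [e]
    exact setLIntegral_mono' measurableSet_Ioc h6
  have h9 : ENNReal.ofReal (K * (2 * ρ)) * (lav μ (fun y => g y ^ p) a (Λ * (2 * ρ))) ^ (1 / p) ≤
      ENNReal.ofReal (4 * K) * (ENNReal.ofReal s *
        (lav μ (fun y => g y ^ p) a (Λ * (2 * ρ))) ^ (1 / p)) := by
    rw [← mul_assoc (ENNReal.ofReal (4 * K)) (ENNReal.ofReal s),
      ← ENNReal.ofReal_mul (by positivity)]
    refine mul_le_mul' (ENNReal.ofReal_le_ofReal ?_) le_rfl
    nlinarith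
  calc _ ≤ ENNReal.ofReal (2 * D ^ 2) * osc μ v a (2 * ρ) := h3
    _ ≤ ENNReal.ofReal (2 * D ^ 2) * (ENNReal.ofReal (4 * K) *
        (ENNReal.ofReal ((D ^ 2) ^ (1 / p)) * ∫⁻ τ in Ioc t (t + s), F τ)) := by
        gcongr
        exact (h5.trans h9).trans (mul_le_mul' le_rfl h8)
    _ = _ := by
        rw [← mul_assoc, ← mul_assoc, ← ENNReal.ofReal_mul (by positivity),
          ← ENNReal.ofReal_mul (by positivity)]
        congr 2
        ring

end

theorem main {X : Type*} [MetricSpace X] [ProperSpace X] [MeasurableSpace X] [BorelSpace X]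
    (μ : Measure X) (p D : ℝ) (hp : 1 < p) (hD : Dbl μ D) : S_CHAIN μ p := by
  intro K Λ hK hΛ
  have hD1 := hD.one_le
  have hD0 : 0 < D := by linarith
  refine ⟨8 * K * D ^ 2 * (D ^ 2) ^ (1 / p) + 1, by positivity, ?_⟩
  intro v g hv _ hPP ρ hρ c hc
  set n : ℕ := ⌈c.l / ρ⌉₊ with hn
  have hl0 : 0 < c.l := by linarith
  have hn0 : 0 < n := Nat.ceil_pos.2 (by positivity)
  have hnR : (0 : ℝ) < n := by exact_mod_cast hn0
  have hn1 : c.l / ρ ≤ n := Nat.le_ceil _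
  have hn2 : (n : ℝ) < c.l / ρ + 1 := Nat.ceil_lt_add_one (by positivity)
  set s : ℝ := c.l / n with hs
  have hns : (n : ℝ) * s = c.l := by
    rw [hs]
    field_simp
  have hs0 : 0 < s := by positivity
  have hs2 : s ≤ ρ := by
    rw [hs, div_le_iff₀ hnR]
    rw [div_le_iff₀ hρ] at hn1
    linarith
  have hs1 : ρ / 2 ≤ s := by
    rw [hs, le_div_iff₀ hnR]
    have h1 : (n : ℝ) * ρ < c.l + ρ := by
      have := mul_lt_mul_of_pos_right hn2 hρ
      rwa [add_mul, one_mul, div_mul_cancel₀ _ hρ.ne'] at this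
    linarith
  set F : ℝ → ℝ≥0∞ := fun τ =>
    (lav μ (fun y => g y ^ p) (c.γ τ) ((2 * Λ + 2) * ρ)) ^ (1 / p) with hF
  set f : ℕ → ℝ := fun i => mean μ v (c.γ (i * s)) ρ with hf
  have h1 : edist (f 0) (f n) ≤ ∑ i ∈ Finset.range n, edist (f i) (f (i + 1)) :=
    edist_le_range_sum_edist f n
  have h2 : ∀ i, edist (f i) (f (i + 1)) ≤
      ENNReal.ofReal (8 * K * D ^ 2 * (D ^ 2) ^ (1 / p)) *
        ∫⁻ τ in Ioc ((i : ℝ) * s) (((i + 1 : ℕ) : ℝ) * s), F τ := by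
    intro i
    have e : (((i + 1 : ℕ) : ℝ)) * s = i * s + s := by
      push_cast
      ring
    have h := step hp hD hK hΛ hv hPP hρ c (t := i * s) hs1 hs2
    rw [edist_dist, Real.dist_eq, hf]
    simp only
    rw [e]
    exact h
  have h3 : ∑ i ∈ Finset.range n, ∫⁻ τ in Ioc ((i : ℝ) * s) (((i + 1 : ℕ) : ℝ) * s), F τ ≤
      ∫⁻ τ in Icc 0 c.l, F τ := by
    have hmono : Monotone (fun i : ℕ => (i : ℝ) * s) := by
      intro i j hij
      have : (i : ℝ) ≤ j := by exact_mod_cast hij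
      exact mul_le_mul_of_nonneg_right this hs0.le
    have hd : Set.PairwiseDisjoint ((Finset.range n : Finset ℕ) : Set ℕ)
        (fun i : ℕ => Ioc ((i : ℝ) * s) (((i + 1 : ℕ) : ℝ) * s)) := by
      intro i _ j _ hij
      exact hmono.pairwise_disjoint_on_Ioc_succ hij
    rw [← lintegral_biUnion_finset hd fun i _ => measurableSet_Ioc]
    refine lintegral_mono_set ?_
    intro τ hτ
    simp only [Set.mem_iUnion, Finset.mem_range] at hτ
    obtain ⟨i, hi, h4, h5⟩ := hτ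
    refine ⟨?_, ?_⟩
    · have : 0 ≤ (i : ℝ) * s := by positivity
      linarith
    · have h6 : (((i + 1 : ℕ) : ℝ)) ≤ n := by exact_mod_cast hi
      have h7 : (((i + 1 : ℕ) : ℝ)) * s ≤ n * s := mul_le_mul_of_nonneg_right h6 hs0.le
      linarith
  have e0 : f 0 = mean μ v (c.γ 0) ρ := by
    simp [hf]
  have en : f n = mean μ v (c.γ c.l) ρ := by
    simp only [hf]
    rw [hns]
  rw [← e0, ← en, ← Real.dist_eq, ← edist_dist]
  calc edist (f 0) (f n) ≤ ∑ i ∈ Finset.range n, edist (f i) (f (i + 1)) := h1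
    _ ≤ ∑ i ∈ Finset.range n, ENNReal.ofReal (8 * K * D ^ 2 * (D ^ 2) ^ (1 / p)) *
        ∫⁻ τ in Ioc ((i : ℝ) * s) (((i + 1 : ℕ) : ℝ) * s), F τ :=
        Finset.sum_le_sum fun i _ => h2 i
    _ = ENNReal.ofReal (8 * K * D ^ 2 * (D ^ 2) ^ (1 / p)) *
        ∑ i ∈ Finset.range n, ∫⁻ τ in Ioc ((i : ℝ) * s) (((i + 1 : ℕ) : ℝ) * s), F τ := by
        rw [Finset.mul_sum]
    _ ≤ ENNReal.ofReal (8 * K * D ^ 2 * (D ^ 2) ^ (1 / p) + 1) * ∫⁻ τ in Icc 0 c.l, F τ :=
        mul_le_mul' (ENNReal.ofReal_le_ofReal (by linarith)) h3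

end Pool.Agent.W101.FD
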